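import Mathlib

set_option autoImplicit false

/-!
Permutations of `ℕ` with finite support such that the permutation and its square avoid 321 and 1342:
the structure theorem.
-/

namespace Pool.Agent.N343.SA

/-- an occurrence of 321 -/
def H321 (f : ℕ → ℕ) : Prop := ∃ a b c, a < b ∧ b < c ∧ f c < f b ∧ f b < f a

/-- an occurrence of 1342 -/
def H1342 (f : ℕ → ℕ) : Prop :=
  ∃ a b c d, a < b ∧ b < c ∧ c < d ∧ f a < f d ∧ f d < f b ∧ f b < f c

/-- an increasing map from an interval onto an interval is a shift -/
theorem shift_of {f : ℕ → ℕ} {a b c : ℕ} (hmono : ∀ i j, a ≤ i → i < j → j ≤ b → f i < f j)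
    (hc : ∀ i, a ≤ i → i ≤ b → c ≤ f i)
    (hsurj : ∀ v, c ≤ v → v ≤ f b → ∃ i, a ≤ i ∧ i ≤ b ∧ f i = v) :
    ∀ t, a + t ≤ b → f (a + t) = c + t := by
  intro t
  induction t with
  | zero =>
    intro h
    have hfb : c ≤ f b := hc b (by omega) le_rfl
    obtain ⟨i, hi1, hi2, hi3⟩ := hsurj c le_rfl hfb
    have h0 := hc a le_rfl (by omega)
    rcases Nat.eq_or_lt_of_le hi1 with h1 | h1
    · subst h1; simpa using hi3
    · have := hmono a i le_rfl h1 hi2
      simp only [Nat.add_zero]; omega
  | succ t ih =>
    intro h
    have h1 := ih (by omega)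
    have h2 : f (a + t) < f (a + (t + 1)) := hmono _ _ (by omega) (by omega) h
    by_contra hne
    have h3 : c + (t + 1) ≤ f b := by
      rcases Nat.eq_or_lt_of_le h with h4 | h4
      · rw [← h4]; omega
      · have := hmono (a + (t + 1)) b (by omega) h4 le_rfl
        omega
    obtain ⟨i, hi1, hi2, hi3⟩ := hsurj (c + (t + 1)) (by omega) h3
    rcases lt_trichotomy i (a + t) with h5 | h5 | h5
    · have := hmono i (a + t) hi1 h5 (by omega); omega
    · subst h5; omega
    · rcases Nat.eq_or_lt_of_le (Nat.succ_le_of_lt h5) with h6 | h6
      · have : a + (t + 1) = i := by omega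
        rw [this] at hne; omega
      · have := hmono (a + (t + 1)) i (by omega) (by omega) hi2
        omega

/-- the case `f N = N - 1` -/
theorem caseA {f : Equiv.Perm ℕ} {N : ℕ} (hfix : ∀ i, N < i → f i = i)
    (h321 : ¬ H321 f) (g321 : ¬ H321 (fun i => f (f i))) (g1342 : ¬ H1342 (fun i => f (f i)))
    (hN : 1 ≤ N) (hk : f N = N - 1) (hne : f (N - 1) ≠ N) :
    ∀ i, i ≤ N → f i = if i + N ≤ N then i + N else i - 1 := by
  have hle : ∀ i, i ≤ N → f i ≤ N := by
    intro i hi
    by_contra h
    have := hfix (f i) (by omega)
    have := f.injective this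
    omega
  have hle' : ∀ i, i ≤ N → f.symm i ≤ N := by
    intro i hi
    by_contra h
    have := hfix (f.symm i) (by omega)
    rw [Equiv.apply_symm_apply] at this
    omega
  obtain ⟨p, hp⟩ : ∃ p, f p = N := f.surjective N
  have hpN : p ≤ N := by
    have := hle' N le_rfl
    rw [← hp, Equiv.symm_apply_apply] at this
    rw [hp] at this; exact this
  have hpN' : p ≠ N := by
    intro h
    rw [h, hk] at hp; omega
  have hpN1 : p ≠ N - 1 := by
    intro h
    rw [h] at hp; exact hne hp
  -- increasing after p
  have hinc : ∀ i j, p < i → i < j → j ≤ N → f i < f j := by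
    intro i j h1 h2 h3
    by_contra h4
    refine h321 ⟨p, i, j, h1, h2, ?_, ?_⟩
    · have : f i ≠ f j := fun h => by have := f.injective h; omega
      omega
    · have h5 := hle i (by omega)
      have : f i ≠ N := fun h => by rw [← hp] at h; have := f.injective h; omega
      rw [hp]; omega
  rcases Nat.eq_zero_or_pos p with h0 | h0
  · -- rotation
    subst h0
    have := shift_of (f := f) (a := 1) (b := N) (c := 0) (fun i j h1 h2 h3 => hinc i j (by omega) h2 h3)
      (fun _ _ _ => Nat.zero_le _) (by
        intro v _ hv
        refine ⟨f.symm v, ?_, ?_, by simp⟩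
        · rcases Nat.eq_zero_or_pos (f.symm v) with h | h
          · have h1 : v = f 0 := by rw [← h]; simp
            rw [h1, hp, hk] at hv; omega
          · exact h
        · exact hle' v (by rw [hk] at hv; omega))
    intro i hi
    rcases Nat.eq_zero_or_pos i with h | h
    · subst h; simp [hp]
    · rw [if_neg (by omega)]
      have h2 := this (i - 1) (by omega)
      rw [show 1 + (i - 1) = i by omega] at h2
      omega
  · exfalso
    obtain ⟨q, hq⟩ : ∃ q, f q = p := f.surjective p
    have hqN : q ≤ N := by
      have := hle' p hpN
      rw [← hq, Equiv.symm_apply_apply] at this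
      exact this
    have hqN' : q ≠ N := by
      intro h; rw [h, hk] at hq; omega
    have hqp : q ≠ p := by
      intro h; rw [h, hp] at hq; omega
    set c := f (N - 1) with hc
    have hcN : c ≤ N := hle _ (by omega)
    have hc1 : c ≠ N - 1 := by
      intro h; rw [← hk] at h; have := f.injective h; omega
    have hc2 : c ≠ N := hne
    -- values of the square
    have hgp : f (f p) = N - 1 := by rw [hp, hk]
    have hgq : f (f q) = N := by rw [hq, hp]
    have hgN : f (f N) = c := by rw [hk]
    have hqp' : p < q := by
      by_contra h
      refine g321 ⟨q, p, N, by omega, by omega, ?_, ?_⟩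
      · change f (f N) < f (f p); rw [hgN, hgp]; omega
      · change f (f p) < f (f q); rw [hgp, hgq]; omega
    have hginj : ∀ i j, f (f i) = f (f j) → i = j := fun i j h => f.injective (f.injective h)
    have hbefore : ∀ i, i < p → c < f (f i) := by
      intro i hi
      by_contra h
      have h1 : f (f i) ≠ c := fun h => by rw [← hgN] at h; have := hginj _ _ h; omega
      refine g1342 ⟨i, p, q, N, hi, hqp', by omega, ?_, ?_, ?_⟩
      · change f (f i) < f (f N); rw [hgN]; omega
      · change f (f N) < f (f p); rw [hgN, hgp]; omega
      · change f (f p) < f (f q); rw [hgp, hgq]; omega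
    have hafter : ∀ i, p < i → i ≠ q → i < N → f (f i) < c := by
      intro i h1 h2 h3
      by_contra h
      have h4 : f (f i) ≠ c := fun h => by rw [← hgN] at h; have := hginj _ _ h; omega
      have h5 : f (f i) ≠ N - 1 := fun h => by rw [← hgp] at h; have := hginj _ _ h; omega
      have h6 : f (f i) ≠ N := fun h => by rw [← hgq] at h; have := hginj _ _ h; omega
      have h7 : f (f i) ≤ N := hle _ (hle _ (by omega))
      refine g321 ⟨p, i, N, h1, h3, ?_, ?_⟩
      · change f (f N) < f (f i); rw [hgN]; omega
      · change f (f i) < f (f p); rw [hgp]; omega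
    -- the two sets of positions with values at most `c`
    have hcard : (Finset.Ioc p N).erase q = (Finset.range (c + 1)).image (fun v => f.symm (f.symm v)) := by
      ext i
      simp only [Finset.mem_erase, Finset.mem_Ioc, Finset.mem_image, Finset.mem_range]
      constructor
      · rintro ⟨h1, h2, h3⟩
        refine ⟨f (f i), ?_, by simp⟩
        rcases Nat.eq_or_lt_of_le h3 with h4 | h4
        · rw [h4, hgN]; omega
        · have := hafter i h2 h1 h4; omega
      · rintro ⟨v, hv, rfl⟩
        have hv' : f (f (f.symm (f.symm v))) = v := by simp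
        refine ⟨fun h => ?_, ?_, ?_⟩
        · rw [h, hgq] at hv'; omega
        · by_contra h
          rcases Nat.eq_or_lt_of_le (not_lt.1 h) with h1 | h1
          · rw [h1, hgp] at hv'; omega
          · have := hbefore _ h1
            rw [hv'] at this; omega
        · exact hle' _ (hle' _ (by omega))
    have hcard1 : N - p - 1 = c + 1 := by
      have := congrArg Finset.card hcard
      rw [Finset.card_erase_of_mem (by simp [Finset.mem_Ioc]; omega), Nat.card_Ioc,
        Finset.card_image_of_injective _ (fun a b h => f.symm.injective (f.symm.injective h)),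
        Finset.card_range] at this
      exact this
    have hset : Finset.Ioc p (N - 1) = (Finset.range (c + 1)).image f.symm := by
      refine Finset.eq_of_subset_of_card_le ?_ ?_
      · intro i hi
        rw [Finset.mem_Ioc] at hi
        rw [Finset.mem_image]
        refine ⟨f i, ?_, by simp⟩
        rw [Finset.mem_range]
        rcases Nat.eq_or_lt_of_le hi.2 with h4 | h4
        · rw [h4]; omega
        · have := hinc i (N - 1) hi.1 h4 (by omega)
          omega
      · rw [Finset.card_image_of_injective _ f.symm.injective, Finset.card_range, Nat.card_Ioc]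
        omega
    have hz : f.symm 0 ∈ Finset.Ioc p (N - 1) := by
      rw [hset, Finset.mem_image]
      exact ⟨0, by simp, rfl⟩
    rw [Finset.mem_Ioc] at hz
    have hz1 : f (p + 1) = 0 := by
      by_contra h
      rcases Nat.eq_or_lt_of_le (Nat.succ_le_of_lt hz.1) with h1 | h1
      · apply h
        rw [show p + 1 = f.symm 0 from h1]; simp
      · have := hinc (p + 1) (f.symm 0) (by omega) h1 (by omega)
        rw [Equiv.apply_symm_apply] at this
        omega
    have h1 : f (f (p + 1)) < c := by
      refine hafter _ (by omega) ?_ (by omega)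
      intro h
      rw [h, hq] at hz1; omega
    have h2 : c < f 0 := by
      by_contra h
      have : (0 : ℕ) ∈ Finset.Ioc p (N - 1) := by
        rw [hset, Finset.mem_image]
        exact ⟨f 0, by rw [Finset.mem_range]; omega, by simp⟩
      rw [Finset.mem_Ioc] at this
      omega
    rw [hz1] at h1
    omega

/-- the case `f N = k`, `k ≤ N - 2` -/
theorem caseB {f : Equiv.Perm ℕ} {N k : ℕ} (hfix : ∀ i, N < i → f i = i)
    (h321 : ¬ H321 f) (h1342 : ¬ H1342 f) (g321 : ¬ H321 (fun i => f (f i)))
    (hkN : k + 2 ≤ N) (hk : f N = k) :
    ∀ i, i ≤ N → f i = if i + (k + 1) ≤ N then i + (k + 1) else i - (N - k) := by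
  have hle : ∀ i, i ≤ N → f i ≤ N := by
    intro i hi
    by_contra h
    have := hfix (f i) (by omega)
    have := f.injective this
    omega
  have hle' : ∀ i, i ≤ N → f.symm i ≤ N := by
    intro i hi
    by_contra h
    have := hfix (f.symm i) (by omega)
    rw [Equiv.apply_symm_apply] at this
    omega
  have hinj : ∀ i j, f i = f j → i = j := fun i j h => f.injective h
  obtain ⟨p, hp⟩ : ∃ p, f p = N := f.surjective N
  have hpN : p ≤ N := by
    have := hle' N le_rfl
    rw [← hp, Equiv.symm_apply_apply] at this
    rw [hp] at this; exact this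
  have hpN' : p ≠ N := by
    intro h
    rw [h, hk] at hp; omega
  obtain ⟨p', hp'⟩ : ∃ p', f p' = N - 1 := f.surjective (N - 1)
  have hpp : p' ≤ N := by
    have := hle' (N - 1) (by omega)
    rw [← hp', Equiv.symm_apply_apply] at this
    exact this
  have hp'N : p' ≠ N := by
    intro h
    rw [h, hk] at hp'; omega
  -- large values are increasing
  have hF1 : ∀ i j, i < j → j < N → k < f i → k < f j → f i < f j := by
    intro i j h1 h2 h3 h4
    by_contra h
    have : f i ≠ f j := fun h => by have := hinj _ _ h; omega
    exact h321 ⟨i, j, N, h1, h2, by rw [hk]; exact h4, by omega⟩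
  have hlt : p' < p := by
    rcases lt_trichotomy p' p with h | h | h
    · exact h
    · rw [h, hp] at hp'; omega
    · have := hF1 p p' h (by omega) (by omega) (by omega)
      omega
  have hL1 : ∀ i, i ≤ p' → k < f i := by
    intro i hi
    by_contra h
    have h1 : f i ≠ k := fun h => by rw [← hk] at h; have := hinj _ _ h; omega
    have h2 : i ≠ p' := fun h' => by rw [h', hp'] at h; omega
    refine h1342 ⟨i, p', p, N, by omega, hlt, by omega, ?_, ?_, ?_⟩
    · rw [hk]; omega
    · rw [hk, hp']; omega
    · rw [hp', hp]; omega
  have hL2 : ∀ i, i < N → k < f i → i ≠ p → i ≤ p' := by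
    intro i h1 h2 h3
    by_contra h
    have h4 := hF1 p' i (by omega) h1 (by omega) h2
    have h5 := hle i (by omega)
    have : f i ≠ N := fun h' => by rw [← hp] at h'; have := hinj _ _ h'; omega
    omega
  -- first block
  have hB1 := shift_of (f := f) (a := 0) (b := p') (c := k + 1)
    (fun i j _ h2 h3 => hF1 i j h2 (by omega) (hL1 i (by omega)) (hL1 j h3))
    (fun i _ h => hL1 i h) (by
      intro v h1 h2
      rw [hp'] at h2
      refine ⟨f.symm v, Nat.zero_le _, ?_, by simp⟩
      have h3 : f.symm v ≤ N := hle' v (by omega)
      have h4 : f.symm v ≠ N := fun h => by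
        have : v = f N := by rw [← h]; simp
        omega
      refine hL2 _ (by omega) (by rw [Equiv.apply_symm_apply]; omega) ?_
      intro h
      have : v = f p := by rw [← h]; simp
      omega)
  have hm : p' + k + 2 = N := by
    have := hB1 p' (by omega)
    rw [Nat.zero_add, hp'] at this
    omega
  have hB1' : ∀ i, i ≤ p' → f i = k + 1 + i := by
    intro i hi
    have := hB1 i (by omega)
    rwa [Nat.zero_add] at this
  -- small values
  have hS : ∀ i, p' < i → i ≠ p → i ≤ N → f i ≤ k := by
    intro i h1 h2 h3
    by_contra h
    rcases Nat.eq_or_lt_of_le h3 with h4 | h4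
    · rw [h4, hk] at h; omega
    · have := hL2 i h4 (by omega) h2
      omega
  have hS' : ∀ i, p' < i → i ≠ p → i < N → f i < k := by
    intro i h1 h2 h3
    have := hS i h1 h2 (by omega)
    have : f i ≠ k := fun h => by rw [← hk] at h; have := hinj _ _ h; omega
    omega
  have hSinc : ∀ i j, p' < i → i < j → j ≤ N → i ≠ p → j ≠ p → f i < f j := by
    intro i j h1 h2 h3 h4 h5
    by_contra h
    have h6 : f i ≠ f j := fun h => by have := hinj _ _ h; omega
    have h7 := hS i h1 h4 (by omega)
    refine h321 ⟨0, i, j, by omega, h2, by omega, ?_⟩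
    rw [hB1' 0 (by omega)]; omega
  -- the position of the largest value
  have hpeq : p = p' + 1 := by
    by_contra hne
    have h0 : f (p' + 1) = 0 := by
      by_contra h
      have h1 := hS (p' + 1) (by omega) (by omega) (by omega)
      have h2 : f.symm 0 ≤ N := hle' 0 (by omega)
      have h3 : ¬ f.symm 0 ≤ p' := fun h' => by
        have := hL1 _ h'
        rw [Equiv.apply_symm_apply] at this; omega
      have h4 : f.symm 0 ≠ p := fun h' => by
        have : f p = 0 := by rw [← h']; simp
        omega
      have h5 : f.symm 0 ≠ p' + 1 := fun h' => by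
        apply h; rw [← h']; simp
      have := hSinc (p' + 1) (f.symm 0) (by omega) (by omega) h2 (by omega) h4
      rw [Equiv.apply_symm_apply] at this
      omega
    have hg1 : f (f (p' + 1)) = k + 1 := by rw [h0, hB1' 0 (by omega)]
    have hgp : f (f p) = k := by rw [hp, hk]
    rcases lt_trichotomy p k with h | h | h
    · -- position `N`
      have h1 : f (f N) < k := by
        rw [hk]; exact hS' k (by omega) (by omega) (by omega)
      refine g321 ⟨p' + 1, p, N, by omega, by omega, ?_, ?_⟩
      · change f (f N) < f (f p); omega
      · change f (f p) < f (f (p' + 1)); omega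
    · -- position `N - 1`
      have h2 : f (N - 1) = k - 1 := by
        have h3 := hS' (N - 1) (by omega) (by omega) (by omega)
        by_contra h4
        obtain ⟨x, hx⟩ : ∃ x, f x = k - 1 := f.surjective (k - 1)
        have h5 : x ≤ N := by
          have := hle' (k - 1) (by omega)
          rw [← hx, Equiv.symm_apply_apply] at this
          exact this
        have h6 : x ≠ N := fun h => by rw [h, hk] at hx; omega
        have h7 : x ≠ N - 1 := fun h => by rw [h] at hx; omega
        have h8 : ¬ x ≤ p' := fun h' => by have := hL1 _ h'; omega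
        have h9 : x ≠ p := fun h => by rw [h] at hx; omega
        have := hSinc x (N - 1) (by omega) (by omega) (by omega) h9 (by omega)
        omega
      have h3 : f (f (N - 1)) < k := by
        rw [h2]; exact hS' _ (by omega) (by omega) (by omega)
      refine g321 ⟨p' + 1, p, N - 1, by omega, by omega, ?_, ?_⟩
      · change f (f (N - 1)) < f (f p); omega
      · change f (f p) < f (f (p' + 1)); omega
    · obtain ⟨x, hx⟩ : ∃ x, f x = p := f.surjective p
      have h5 : x ≤ N := by
        have := hle' p (by omega)
        rw [← hx, Equiv.symm_apply_apply] at this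
        exact this
      have h6 : x ≠ p := fun h => by rw [h, hp] at hx; omega
      have h7 : x ≤ p' := by
        by_contra h8
        have := hS x (by omega) h6 h5
        omega
      refine g321 ⟨x, p' + 1, p, by omega, by omega, ?_, ?_⟩
      · change f (f p) < f (f (p' + 1)); omega
      · change f (f (p' + 1)) < f (f x); rw [hx, hp, hg1]; omega
  -- last block
  have hB2 := shift_of (f := f) (a := p + 1) (b := N) (c := 0)
    (fun i j h1 h2 h3 => hSinc i j (by omega) h2 h3 (by omega) (by omega))
    (fun _ _ _ => Nat.zero_le _) (by
      intro v _ h2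
      rw [hk] at h2
      refine ⟨f.symm v, ?_, hle' v (by omega), by simp⟩
      by_contra h
      rcases Nat.lt_or_ge p' (f.symm v) with h3 | h3
      · have : f.symm v = p := by omega
        have : v = f p := by rw [← this]; simp
        omega
      · have := hL1 _ h3
        rw [Equiv.apply_symm_apply] at this
        omega)
  intro i hi
  split_ifs with h
  · rcases Nat.lt_or_ge p' i with h1 | h1
    · have : i = p := by omega
      rw [this, hp]; omega
    · rw [hB1' i h1]; omega
  · have := hB2 (i - (p + 1)) (by omega)
    rw [show p + 1 + (i - (p + 1)) = i by omega] at this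
    rw [this]; omega

end Pool.Agent.N343.SA
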