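import Pool.Agent.N343.SA.Core

set_option autoImplicit false

/-!
Counting the permutations.
-/

namespace Pool.Agent.N343.SA

/-- the rotation `i ↦ i + k mod n` of `{0, …, n-1}` -/
def rot (n k : ℕ) (h : k ≤ n) : Equiv.Perm ℕ where
  toFun i := if i < n then (if i + k < n then i + k else i + k - n) else i
  invFun i := if i < n then (if k ≤ i then i - k else i + n - k) else i
  left_inv := by intro i; dsimp only; split_ifs <;> omega
  right_inv := by intro i; dsimp only; split_ifs <;> omega

theorem rot_apply (n k : ℕ) (h : k ≤ n) (i : ℕ) :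
    rot n k h i = if i < n then (if i + k < n then i + k else i + k - n) else i := rfl

/-- the permutation and its square avoid 321 and 1342 -/
def Q (f : Equiv.Perm ℕ) : Prop :=
  ¬ H321 f ∧ ¬ H1342 f ∧ ¬ H321 (fun i => f (f i)) ∧ ¬ H1342 (fun i => f (f i))

/-- the strongly avoiding permutations of `{0, …, n-1}` -/
def A (n : ℕ) : Set (Equiv.Perm ℕ) := {f | (∀ i, n ≤ i → f i = i) ∧ Q f}

theorem rot_321 (n k : ℕ) (h : k ≤ n) : ¬ H321 (rot n k h) := by
  rintro ⟨a, b, c, h1, h2, h3, h4⟩
  simp only [rot_apply] at h3 h4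
  split_ifs at h3 h4 <;> omega

theorem rot_1342 (n k : ℕ) (h : k ≤ n) : ¬ H1342 (rot n k h) := by
  rintro ⟨a, b, c, d, h1, h2, h3, h4, h5, h6⟩
  simp only [rot_apply] at h4 h5 h6
  split_ifs at h4 h5 h6 <;> omega

theorem rot_rot (n k : ℕ) (h : k ≤ n) : ∃ (k' : ℕ) (h' : k' ≤ n),
    (fun i => rot n k h (rot n k h i)) = (rot n k' h' : ℕ → ℕ) := by
  by_cases h2 : k + k ≤ n
  · refine ⟨k + k, h2, ?_⟩
    funext i
    simp only [rot_apply]
    split_ifs <;> omega
  · refine ⟨k + k - n, by omega, ?_⟩
    funext i
    simp only [rot_apply]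
    split_ifs <;> omega

theorem rot_Q (n k : ℕ) (h : k ≤ n) : Q (rot n k h) := by
  obtain ⟨k', h', e⟩ := rot_rot n k h
  refine ⟨rot_321 n k h, rot_1342 n k h, ?_, ?_⟩
  · rw [e]; exact rot_321 n k' h'
  · rw [e]; exact rot_1342 n k' h'

theorem rot_mem (n k : ℕ) (h : k ≤ n) : rot n k h ∈ A n := by
  refine ⟨fun i hi => ?_, rot_Q n k h⟩
  rw [rot_apply, if_neg (by omega)]

/-- values of a permutation with support in `{0, …, n-1}` -/
theorem lt_of_fix {f : Equiv.Perm ℕ} {n : ℕ} (hfix : ∀ i, n ≤ i → f i = i) (i : ℕ) (hi : i < n) :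
    f i < n := by
  by_contra h
  have := hfix (f i) (by omega)
  have := f.injective this
  omega

theorem swap_321 {h f : ℕ → ℕ} {m : ℕ} (hf : ∀ i, i < m → f i < m)
    (h0 : ∀ i, i < m → h i = f i) (h1 : h m = m + 1) (h2 : h (m + 1) = m)
    (h3 : ∀ i, m + 2 ≤ i → h i = i) (H : H321 h) : H321 f := by
  have hb : ∀ i, i < m + 2 → h i < m + 2 := by
    intro i hi
    rcases Nat.lt_or_ge i m with h4 | h4
    · rw [h0 i h4]; have := hf i h4; omega
    · rcases Nat.eq_or_lt_of_le h4 with h5 | h5
      · rw [← h5, h1]; omega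
      · have : i = m + 1 := by omega
        rw [this, h2]; omega
  obtain ⟨a, b, c, e1, e2, e3, e4⟩ := H
  have hc : c < m := by
    by_contra hc
    rcases Nat.lt_or_ge c (m + 2) with h4 | h4
    · rcases Nat.lt_or_ge b m with h5 | h5
      · have := hf b h5
        rw [h0 b h5] at e3
        rcases Nat.eq_or_lt_of_le (not_lt.1 hc) with h6 | h6
        · rw [← h6, h1] at e3; omega
        · have : c = m + 1 := by omega
          rw [this, h2] at e3; omega
      · have hbm : b = m := by omega
        have ha : a < m := by omega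
        rw [hbm, h1, h0 a ha] at e4
        have := hf a ha
        omega
    · rw [h3 c h4] at e3
      rcases Nat.lt_or_ge b (m + 2) with h5 | h5
      · have := hb b h5; omega
      · rw [h3 b h5] at e3; omega
  rw [h0 c hc, h0 b (by omega)] at e3
  rw [h0 b (by omega), h0 a (by omega)] at e4
  exact ⟨a, b, c, e1, e2, e3, e4⟩

theorem swap_1342 {h f : ℕ → ℕ} {m : ℕ} (hf : ∀ i, i < m → f i < m)
    (h0 : ∀ i, i < m → h i = f i) (h1 : h m = m + 1) (h2 : h (m + 1) = m)
    (h3 : ∀ i, m + 2 ≤ i → h i = i) (H : H1342 h) : H1342 f := by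
  have hb : ∀ i, i < m + 2 → h i < m + 2 := by
    intro i hi
    rcases Nat.lt_or_ge i m with h4 | h4
    · rw [h0 i h4]; have := hf i h4; omega
    · rcases Nat.eq_or_lt_of_le h4 with h5 | h5
      · rw [← h5, h1]; omega
      · have : i = m + 1 := by omega
        rw [this, h2]; omega
  obtain ⟨a, b, c, d, e1, e2, e3, e4, e5, e6⟩ := H
  have hd : d < m := by
    by_contra hd
    rcases Nat.lt_or_ge d (m + 2) with h4 | h4
    · have hbm : b < m := by omega
      have := hf b hbm
      rw [h0 b hbm] at e5
      rcases Nat.eq_or_lt_of_le (not_lt.1 hd) with h6 | h6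
      · rw [← h6, h1] at e5; omega
      · have : d = m + 1 := by omega
        rw [this, h2] at e5; omega
    · rw [h3 d h4] at e5
      rcases Nat.lt_or_ge b (m + 2) with h5 | h5
      · have := hb b h5; omega
      · rw [h3 b h5] at e5; omega
  rw [h0 a (by omega), h0 d hd] at e4
  rw [h0 d hd, h0 b (by omega)] at e5
  rw [h0 b (by omega), h0 c (by omega)] at e6
  exact ⟨a, b, c, d, e1, e2, e3, e4, e5, e6⟩

/-- appending the block 21 -/
theorem mul_swap_mem {f : Equiv.Perm ℕ} {m : ℕ} (hf : f ∈ A m) :
    f * Equiv.swap m (m + 1) ∈ A (m + 2) := by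
  obtain ⟨hfix, q1, q2, q3, q4⟩ := hf
  have hlt := fun i hi => lt_of_fix hfix i hi
  have e0 : ∀ i, i < m → (f * Equiv.swap m (m + 1)) i = f i := by
    intro i hi
    rw [Equiv.Perm.mul_apply, Equiv.swap_apply_of_ne_of_ne (by omega) (by omega)]
  have e1 : (f * Equiv.swap m (m + 1)) m = m + 1 := by
    rw [Equiv.Perm.mul_apply, Equiv.swap_apply_left, hfix _ (by omega)]
  have e2 : (f * Equiv.swap m (m + 1)) (m + 1) = m := by
    rw [Equiv.Perm.mul_apply, Equiv.swap_apply_right, hfix _ (by omega)]
  have e3 : ∀ i, m + 2 ≤ i → (f * Equiv.swap m (m + 1)) i = i := by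
    intro i hi
    rw [Equiv.Perm.mul_apply, Equiv.swap_apply_of_ne_of_ne (by omega) (by omega), hfix _ (by omega)]
  have e4 : (fun i => (f * Equiv.swap m (m + 1)) ((f * Equiv.swap m (m + 1)) i)) =
      fun i => f (f i) := by
    funext i
    rcases Nat.lt_or_ge i m with h | h
    · rw [e0 i h, e0 _ (hlt i h)]
    · rw [hfix i h, hfix i h]
      rcases Nat.eq_or_lt_of_le h with h1 | h1
      · rw [← h1, e1, e2]
      · rcases Nat.eq_or_lt_of_le (Nat.succ_le_of_lt h1) with h2 | h2
        · rw [← h2]
          show (f * Equiv.swap m (m + 1)) ((f * Equiv.swap m (m + 1)) (m + 1)) = m + 1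
          rw [e2, e1]
        · rw [e3 i (by omega), e3 i (by omega)]
  refine ⟨e3, fun H => q1 (swap_321 hlt e0 e1 e2 e3 H), fun H => q2 (swap_1342 hlt e0 e1 e2 e3 H),
    ?_, ?_⟩
  · rw [e4]; exact q3
  · rw [e4]; exact q4

/-- the nontrivial rotations -/
def R (n : ℕ) : Set (Equiv.Perm ℕ) := {f | ∃ (k : ℕ) (h : k ≤ n), 1 ≤ k ∧ k < n ∧ f = rot n k h}

theorem ncard_R (n : ℕ) : (R n).ncard = n - 1 := by
  have hinj : Set.InjOn (fun f : Equiv.Perm ℕ => f 0) (R n) := by
    rintro f ⟨k, h, h1, h2, rfl⟩ g ⟨l, h', h3, h4, rfl⟩ e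
    simp only [rot_apply] at e
    have : k = l := by
      split_ifs at e <;> omega
    subst this
    rfl
  have himg : (fun f : Equiv.Perm ℕ => f 0) '' R n = Set.Ico 1 n := by
    ext k
    simp only [Set.mem_image, Set.mem_Ico]
    constructor
    · rintro ⟨f, ⟨k, h, h1, h2, rfl⟩, rfl⟩
      rw [rot_apply]
      split_ifs <;> omega
    · rintro ⟨h1, h2⟩
      refine ⟨rot n k h2.le, ⟨k, h2.le, h1, h2, rfl⟩, ?_⟩
      rw [rot_apply]
      split_ifs <;> omega
  rw [← hinj.ncard_image, himg, Set.ncard_eq_toFinset_card']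
  simp

theorem finite_A (n : ℕ) : (A n).Finite := by
  have : Finite {f : Equiv.Perm ℕ // ∀ i, ¬ (i < n) → f i = i} :=
    Finite.of_equiv _ (Equiv.Perm.subtypeEquivSubtypePerm (fun i => i < n))
  have h2 : ({f : Equiv.Perm ℕ | ∀ i, ¬ (i < n) → f i = i}).Finite := Set.finite_coe_iff.1 this
  exact h2.subset fun f hf i hi => hf.1 i (not_lt.1 hi)

/-- the structure theorem -/
theorem A_succ (n : ℕ) (hn : 1 ≤ n) :
    A (n + 2) = (A (n + 1) ∪ (fun f => f * Equiv.swap n (n + 1)) '' A n) ∪ R (n + 2) := by
  ext f
  constructor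
  · intro hf
    obtain ⟨hfix, q1, q2, q3, q4⟩ := id hf
    have hfixN : ∀ i, n + 1 < i → f i = i := fun i hi => hfix i (by omega)
    by_cases h1 : f (n + 1) = n + 1
    · left; left
      refine ⟨fun i hi => ?_, hf.2⟩
      rcases Nat.eq_or_lt_of_le hi with h | h
      · rw [← h]; exact h1
      · exact hfix i (by omega)
    · have hlt := lt_of_fix hfix (n + 1) (by omega)
      by_cases h2 : f (n + 1) = n
      · by_cases h3 : f n = n + 1
        · left; right
          have e0 : ∀ i, n ≤ i → (f * Equiv.swap n (n + 1)) i = i := by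
            intro i hi
            rcases Nat.eq_or_lt_of_le hi with h | h
            · rw [← h, Equiv.Perm.mul_apply, Equiv.swap_apply_left, h2]
            · rcases Nat.eq_or_lt_of_le (Nat.succ_le_of_lt h) with h' | h'
              · rw [← h']
                show (f * Equiv.swap n (n + 1)) (n + 1) = n + 1
                rw [Equiv.Perm.mul_apply, Equiv.swap_apply_right, h3]
              · rw [Equiv.Perm.mul_apply, Equiv.swap_apply_of_ne_of_ne (by omega) (by omega),
                  hfix _ (by omega)]
          have e1 : ∀ i, i < n → (f * Equiv.swap n (n + 1)) i = f i := by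
            intro i hi
            rw [Equiv.Perm.mul_apply, Equiv.swap_apply_of_ne_of_ne (by omega) (by omega)]
          have e2 : ∀ i, i < n → (f * Equiv.swap n (n + 1)) i < n :=
            fun i hi => lt_of_fix e0 i hi
          refine ⟨f * Equiv.swap n (n + 1), ⟨e0, ?_⟩, ?_⟩
          · -- patterns of the restriction are patterns of `f`
            have e3 : (fun i => (f * Equiv.swap n (n + 1)) ((f * Equiv.swap n (n + 1)) i)) =
                fun i => f (f i) := by
              funext i
              rcases Nat.lt_or_ge i n with h | h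
              · rw [e1 _ (e2 i h), e1 i h]
              · rw [e0 i h, e0 i h]
                rcases Nat.eq_or_lt_of_le h with h' | h'
                · rw [← h', h3, h2]
                · rcases Nat.eq_or_lt_of_le (Nat.succ_le_of_lt h') with h4 | h4
                  · rw [← h4]; show n + 1 = f (f (n + 1)); rw [h2, h3]
                  · rw [hfix i (by omega), hfix i (by omega)]
            have hmax : ∀ (i j : ℕ), i < j → n ≤ j →
                (f * Equiv.swap n (n + 1)) i < (f * Equiv.swap n (n + 1)) j := by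
              intro i j h4 h5
              rw [e0 j h5]
              rcases Nat.lt_or_ge i n with h | h
              · have := e2 i h; omega
              · rw [e0 i h]; exact h4
            refine ⟨?_, ?_, ?_, ?_⟩
            · rintro ⟨a, b, c, g1, g2, g3, g4⟩
              have hc : c < n := by
                by_contra hc
                have := hmax b c g2 (by omega)
                omega
              rw [e1 c hc, e1 b (by omega)] at g3
              rw [e1 b (by omega), e1 a (by omega)] at g4
              exact q1 ⟨a, b, c, g1, g2, g3, g4⟩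
            · rintro ⟨a, b, c, d, g1, g2, g3, g4, g5, g6⟩
              have hd : d < n := by
                by_contra hd
                have := hmax b d (by omega) (by omega)
                omega
              rw [e1 a (by omega), e1 d hd] at g4
              rw [e1 d hd, e1 b (by omega)] at g5
              rw [e1 b (by omega), e1 c (by omega)] at g6
              exact q2 ⟨a, b, c, d, g1, g2, g3, g4, g5, g6⟩
            · rw [e3]; exact q3
            · rw [e3]; exact q4
          · show f * Equiv.swap n (n + 1) * Equiv.swap n (n + 1) = f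
            rw [mul_assoc, Equiv.swap_mul_self, mul_one]
        · right
          have h4 := caseA (N := n + 1) hfixN q1 q3 q4 (by omega) (by simpa using h2)
            (by simpa using h3)
          refine ⟨n + 1, by omega, by omega, by omega, ?_⟩
          ext i
          rw [rot_apply]
          split_ifs with h5 h6
          · rw [h4 i (by omega), if_pos (by omega)]
          · rw [h4 i (by omega), if_neg (by omega)]; omega
          · exact hfix i (by omega)
      · right
        have h4 := caseB (N := n + 1) (k := f (n + 1)) hfixN q1 q2 q3 (by omega) rfl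
        refine ⟨f (n + 1) + 1, by omega, by omega, by omega, ?_⟩
        ext i
        rw [rot_apply]
        split_ifs with h5 h6
        · rw [h4 i (by omega), if_pos (by omega)]
        · rw [h4 i (by omega), if_neg (by omega)]; omega
        · exact hfix i (by omega)
  · rintro ((hf | ⟨g, hg, rfl⟩) | ⟨k, h, h1, h2, rfl⟩)
    · exact ⟨fun i hi => hf.1 i (by omega), hf.2⟩
    · exact mul_swap_mem hg
    · exact rot_mem _ _ _

theorem ncard_A_succ (n : ℕ) (hn : 1 ≤ n) :
    (A (n + 2)).ncard = (A (n + 1)).ncard + (A n).ncard + (n + 1) := by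
  have hfin : ((fun f => f * Equiv.swap n (n + 1)) '' A n).Finite := (finite_A n).image _
  have hfinR : (R (n + 2)).Finite := by
    refine (finite_A (n + 2)).subset ?_
    rintro f ⟨k, h, -, -, rfl⟩
    exact rot_mem _ _ _
  have hd1 : Disjoint (A (n + 1)) ((fun f => f * Equiv.swap n (n + 1)) '' A n) := by
    rw [Set.disjoint_left]
    rintro f hf ⟨g, hg, rfl⟩
    have h1 := hf.1 (n + 1) le_rfl
    simp only [Equiv.Perm.mul_apply, Equiv.swap_apply_right] at h1
    rw [hg.1 n le_rfl] at h1
    omega
  have hd2 : Disjoint (A (n + 1) ∪ (fun f => f * Equiv.swap n (n + 1)) '' A n) (R (n + 2)) := by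
    rw [Set.disjoint_left]
    rintro f hf ⟨k, h, h1, h2, rfl⟩
    rcases hf with hf | ⟨g, hg, e⟩
    · have h3 := hf.1 (n + 1) le_rfl
      rw [rot_apply] at h3
      split_ifs at h3 <;> omega
    · have h3 : (g * Equiv.swap n (n + 1)) (n + 1) = rot (n + 2) k h (n + 1) := by
        rw [← e]
      have h4 : (g * Equiv.swap n (n + 1)) n = rot (n + 2) k h n := by
        rw [← e]
      simp only [Equiv.Perm.mul_apply, Equiv.swap_apply_right, Equiv.swap_apply_left] at h3 h4
      rw [hg.1 n le_rfl, rot_apply] at h3
      rw [hg.1 (n + 1) (by omega), rot_apply] at h4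
      split_ifs at h3 h4 <;> omega
  rw [A_succ n hn, Set.ncard_union_eq hd2 ((finite_A _).union hfin) hfinR,
    Set.ncard_union_eq hd1 (finite_A _) hfin,
    Set.ncard_image_of_injective _ (mul_left_injective _), ncard_R]
  omega

theorem one_mem (n : ℕ) : (1 : Equiv.Perm ℕ) ∈ A n := by
  refine ⟨fun _ _ => rfl, ?_, ?_, ?_, ?_⟩
  · rintro ⟨a, b, c, h1, h2, h3, h4⟩
    simp only [Equiv.Perm.one_apply] at h3 h4; omega
  · rintro ⟨a, b, c, d, h1, h2, h3, h4, h5, h6⟩
    simp only [Equiv.Perm.one_apply] at h4 h5 h6; omega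
  · rintro ⟨a, b, c, h1, h2, h3, h4⟩
    simp only [Equiv.Perm.one_apply] at h3 h4; omega
  · rintro ⟨a, b, c, d, h1, h2, h3, h4, h5, h6⟩
    simp only [Equiv.Perm.one_apply] at h4 h5 h6; omega

theorem A_one : A 1 = {1} := by
  ext f
  constructor
  · intro hf
    rw [Set.mem_singleton_iff]
    ext i
    rcases Nat.eq_zero_or_pos i with h | h
    · have := lt_of_fix hf.1 0 (by omega)
      rw [h]; simp; omega
    · rw [hf.1 i h]; rfl
  · rintro rfl
    exact one_mem 1

theorem A_zero : A 0 = {1} := by
  ext f
  constructor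
  · intro hf
    rw [Set.mem_singleton_iff]
    ext i
    rw [hf.1 i (by omega)]; rfl
  · rintro rfl
    exact one_mem 0

theorem A_two : A 2 = {1, Equiv.swap 0 1} := by
  ext f
  constructor
  · intro hf
    have h0 := lt_of_fix hf.1 0 (by omega)
    have h1 := lt_of_fix hf.1 1 (by omega)
    have hne : f 0 ≠ f 1 := fun h => by have := f.injective h; omega
    rw [Set.mem_insert_iff, Set.mem_singleton_iff]
    rcases Nat.eq_zero_or_pos (f 0) with h | h
    · left
      ext i
      rcases Nat.lt_or_ge i 2 with h2 | h2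
      · interval_cases i
        · exact h
        · show f 1 = 1; omega
      · rw [hf.1 i h2]; rfl
    · right
      ext i
      rcases Nat.lt_or_ge i 2 with h2 | h2
      · interval_cases i
        · rw [Equiv.swap_apply_left]; omega
        · rw [Equiv.swap_apply_right]; omega
      · rw [hf.1 i h2, Equiv.swap_apply_of_ne_of_ne (by omega) (by omega)]
  · rintro (rfl | rfl)
    · exact one_mem 2
    · have := mul_swap_mem (one_mem 0)
      simpa using this

theorem ncard_A (n : ℕ) :
    ((A (n + 1)).ncard : ℤ) = 2 * Nat.fib (n + 3) - (n + 1) - 2 ∧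
    ((A (n + 2)).ncard : ℤ) = 2 * Nat.fib (n + 4) - (n + 2) - 2 := by
  induction n with
  | zero =>
    constructor
    · rw [A_one]; simp; decide
    · rw [A_two, Set.ncard_pair (by
        intro h
        have := congrArg (fun f : Equiv.Perm ℕ => f 0) h
        simp at this)]
      decide
  | succ n ih =>
    obtain ⟨h1, h2⟩ := ih
    refine ⟨?_, ?_⟩
    · rw [show n + 1 + 1 = n + 2 by ring, show n + 1 + 3 = n + 4 by ring, h2]
      push_cast; ring
    · have h3 := ncard_A_succ (n + 1) (by omega)
      have h4 : Nat.fib (n + 1 + 4) = Nat.fib (n + 3) + Nat.fib (n + 4) := by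
        rw [show n + 1 + 4 = n + 3 + 2 by ring, Nat.fib_add_two]
      rw [h3, h4]
      rw [show n + 1 + 1 = n + 2 by ring]
      push_cast
      rw [h1, h2]
      ring

end Pool.Agent.N343.SA
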