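import Mathlib

set_option autoImplicit false

/-!
Containment of patterns.
-/

namespace Pool.Agent.N343.SA

/-- the permutation `π` of `{0, …, n-1}` contains the pattern `τ` (a word with distinct letters) -/
def Contains {m n : ℕ} (τ : Fin m → ℕ) (π : Equiv.Perm (Fin n)) : Prop :=
  ∃ i : Fin m → Fin n, StrictMono i ∧ ∀ j k, π (i j) < π (i k) ↔ τ j < τ k

/-- `π` and `π ^ 2` avoid the pattern `τ` -/
def StronglyAvoids {m n : ℕ} (τ : Fin m → ℕ) (π : Equiv.Perm (Fin n)) : Prop :=
  ¬ Contains τ π ∧ ¬ Contains τ (π ^ 2)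

end Pool.Agent.N343.SA
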