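import Pool.Agent.N343.SA.Count
import Pool.Agent.N343.SA.Defs

set_option autoImplicit false

/-!
Transfer to permutations of `Fin n`.
-/

namespace Pool.Agent.N343.SA

/-- extension by fixed points -/
noncomputable def E (n : ℕ) : Equiv.Perm (Fin n) ≃ {f : Equiv.Perm ℕ // ∀ i, ¬ (i < n) → f i = i} :=
  (Fin.equivSubtype.permCongr).trans (Equiv.Perm.subtypeEquivSubtypePerm (fun i => i < n))

theorem E_apply {n : ℕ} (π : Equiv.Perm (Fin n)) (i : Fin n) :
    (E n π : Equiv.Perm ℕ) i = π i := by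
  have h : (i : ℕ) < n := i.2
  show (Equiv.Perm.ofSubtype (Fin.equivSubtype.permCongr π) : Equiv.Perm ℕ) (i : ℕ) = _
  rw [Equiv.Perm.ofSubtype_apply_of_mem (p := fun i : ℕ => i < n) _ h]
  rfl

theorem E_apply_lt {n : ℕ} (π : Equiv.Perm (Fin n)) (i : ℕ) (h : i < n) :
    (E n π : Equiv.Perm ℕ) i = π ⟨i, h⟩ := E_apply π ⟨i, h⟩

theorem E_apply_ge {n : ℕ} (π : Equiv.Perm (Fin n)) (i : ℕ) (h : n ≤ i) :
    (E n π : Equiv.Perm ℕ) i = i := (E n π).2 i (not_lt.2 h)

theorem E_sq {n : ℕ} (π : Equiv.Perm (Fin n)) :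
    ((E n (π ^ 2) : Equiv.Perm ℕ) : ℕ → ℕ) = fun i => (E n π : Equiv.Perm ℕ) ((E n π : Equiv.Perm ℕ) i) := by
  funext i
  rcases Nat.lt_or_ge i n with h | h
  · rw [E_apply_lt _ i h, E_apply_lt _ i h, E_apply_lt _ _ (π ⟨i, h⟩).2, sq]
    rfl
  · rw [E_apply_ge _ i h, E_apply_ge _ i h, E_apply_ge _ i h]

theorem contains_321 {n : ℕ} (π : Equiv.Perm (Fin n)) :
    Contains ![3, 2, 1] π ↔ H321 (E n π : Equiv.Perm ℕ) := by
  constructor
  · rintro ⟨i, hi, h⟩
    refine ⟨i 0, i 1, i 2, hi (by decide), hi (by decide), ?_, ?_⟩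
    · rw [E_apply, E_apply]; exact (h 2 1).2 (by decide)
    · rw [E_apply, E_apply]; exact (h 1 0).2 (by decide)
  · rintro ⟨a, b, c, h1, h2, h3, h4⟩
    have hfix : ∀ i, n ≤ i → (E n π : Equiv.Perm ℕ) i = i := E_apply_ge π
    have hc : c < n := by
      by_contra hc
      rw [hfix c (by omega)] at h3
      rcases Nat.lt_or_ge b n with hb | hb
      · have := lt_of_fix hfix b hb; omega
      · rw [hfix b hb] at h3; omega
    rw [E_apply_lt π c hc, E_apply_lt π b (by omega)] at h3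
    rw [E_apply_lt π b (by omega), E_apply_lt π a (by omega)] at h4
    refine ⟨![⟨a, by omega⟩, ⟨b, by omega⟩, ⟨c, by omega⟩], ?_, ?_⟩
    · rw [Fin.strictMono_iff_lt_succ]
      intro j
      fin_cases j
      · exact h1
      · exact h2
    · intro j k
      have h5 : π ⟨c, hc⟩ < π ⟨b, by omega⟩ := h3
      have h6 : π ⟨b, by omega⟩ < π ⟨a, by omega⟩ := h4
      fin_cases j <;> fin_cases k <;> simp [h5, h6, h5.trans h6, h5.le, h6.le, (h5.trans h6).le]

theorem contains_1342 {n : ℕ} (π : Equiv.Perm (Fin n)) :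
    Contains ![1, 3, 4, 2] π ↔ H1342 (E n π : Equiv.Perm ℕ) := by
  constructor
  · rintro ⟨i, hi, h⟩
    refine ⟨i 0, i 1, i 2, i 3, hi (by decide), hi (by decide), hi (by decide), ?_, ?_, ?_⟩
    · rw [E_apply, E_apply]; exact (h 0 3).2 (by decide)
    · rw [E_apply, E_apply]; exact (h 3 1).2 (by decide)
    · rw [E_apply, E_apply]; exact (h 1 2).2 (by decide)
  · rintro ⟨a, b, c, d, h1, h2, h3, h4, h5, h6⟩
    have hfix : ∀ i, n ≤ i → (E n π : Equiv.Perm ℕ) i = i := E_apply_ge π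
    have hd : d < n := by
      by_contra hd
      rw [hfix d (by omega)] at h5
      rcases Nat.lt_or_ge b n with hb | hb
      · have := lt_of_fix hfix b hb; omega
      · rw [hfix b hb] at h5; omega
    rw [E_apply_lt π a (by omega), E_apply_lt π d hd] at h4
    rw [E_apply_lt π b (by omega), E_apply_lt π d hd] at h5
    rw [E_apply_lt π b (by omega), E_apply_lt π c (by omega)] at h6
    have h7 : π ⟨a, by omega⟩ < π ⟨d, hd⟩ := h4
    have h8 : π ⟨d, hd⟩ < π ⟨b, by omega⟩ := h5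
    have h9 : π ⟨b, by omega⟩ < π ⟨c, by omega⟩ := h6
    refine ⟨![⟨a, by omega⟩, ⟨b, by omega⟩, ⟨c, by omega⟩, ⟨d, hd⟩], ?_, ?_⟩
    · rw [Fin.strictMono_iff_lt_succ]
      intro j
      fin_cases j
      · exact h1
      · exact h2
      · exact h3
    · intro j k
      have t1 := h7.trans h8
      have t2 := h8.trans h9
      have t3 := h7.trans t2
      fin_cases j <;> fin_cases k <;>
        simp [h7, h8, h9, t1, t2, t3, h7.le, h8.le, h9.le, t1.le, t2.le, t3.le]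

theorem card_eq (n : ℕ) : Nat.card {π : Equiv.Perm (Fin n) //
    (¬ Contains ![3, 2, 1] π ∧ ¬ Contains ![3, 2, 1] (π ^ 2)) ∧
    (¬ Contains ![1, 3, 4, 2] π ∧ ¬ Contains ![1, 3, 4, 2] (π ^ 2))} = (A n).ncard := by
  rw [← Nat.card_coe_set_eq]
  refine Nat.card_congr ?_
  refine ((E n).subtypeEquiv (q := fun f : {f : Equiv.Perm ℕ // ∀ i, ¬ (i < n) → f i = i} => Q f.1) ?_).trans ?_
  · intro π
    rw [contains_321, contains_321, contains_1342, contains_1342, E_sq]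
    unfold Q
    tauto
  · exact (Equiv.subtypeSubtypeEquivSubtypeInter (fun f : Equiv.Perm ℕ => ∀ i, ¬ (i < n) → f i = i)
      Q).trans (Equiv.subtypeEquivRight fun f => by
        show _ ∧ _ ↔ _ ∧ _
        simp only [not_lt])

theorem main (n : ℕ) (hn : 1 ≤ n) : (Nat.card {π : Equiv.Perm (Fin n) //
    (¬ Contains ![3, 2, 1] π ∧ ¬ Contains ![3, 2, 1] (π ^ 2)) ∧
    (¬ Contains ![1, 3, 4, 2] π ∧ ¬ Contains ![1, 3, 4, 2] (π ^ 2))} : ℤ) =
      2 * Nat.fib (n + 2) - n - 2 := by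
  obtain ⟨m, rfl⟩ := Nat.exists_eq_add_of_le' hn
  rw [card_eq, (ncard_A m).1]
  push_cast
  ring

end Pool.Agent.N343.SA
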